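import Mathlib

/-! An analytic TAF subalgebra of a UHF algebra cannot admit both a bounded and an unbounded
cocycle. -/

set_option autoImplicit false

namespace Pool.Agent.Results.MP_3ea43b_an.NotBoth

open Filter Topology

/-- The spectrum `X` of the canonical masa of the UHF algebra `⊗ M_{k n}`: the product of the
finite sets `Fin (k n)`, with the product topology. -/
abbrev X (k : ℕ → ℕ) : Type := (n : ℕ) → Fin (k n)

/-- The compact open subrelation `R_N` of pairs of sequences which agree from `N` on. -/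
def Rn (k : ℕ → ℕ) (N : ℕ) : Set (X k × X k) := {p | ∀ n, N ≤ n → p.1 n = p.2 n}

/-- The AF equivalence relation of the UHF algebra and its canonical masa: tail equivalence. -/
def R (k : ℕ → ℕ) : Set (X k × X k) := {p | ∃ N, p ∈ Rn k N}

/-- A cocycle on `R`: a function on `R` which is additive and continuous for the étale topology of
`R`, which is the inductive limit topology of the product topologies on the sets `R_N`. (The values
of `c` outside of `R` play no role.) -/
structure IsCocycle {k : ℕ → ℕ} (c : X k → X k → ℝ) : Prop where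
  add : ∀ x y z, (x, y) ∈ R k → (y, z) ∈ R k → c x y + c y z = c x z
  cont : ∀ N, ContinuousOn (fun p : X k × X k => c p.1 p.2) (Rn k N)

/-- A cocycle is bounded if it is bounded on `R`. -/
def IsBoundedCocycle {k : ℕ → ℕ} (c : X k → X k → ℝ) : Prop :=
  ∃ M : ℝ, ∀ x y, (x, y) ∈ R k → |c x y| ≤ M

/-- The set `{(x, y) ∈ R : c(x, y) ≥ 0}`. -/
def posSet {k : ℕ → ℕ} (c : X k → X k → ℝ) : Set (X k × X k) := {p | p ∈ R k ∧ 0 ≤ c p.1 p.2}

section

variable {k : ℕ → ℕ}

theorem Rn_mono {M N : ℕ} (h : M ≤ N) : Rn k M ⊆ Rn k N := fun _ hp n hn => hp n (h.trans hn)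

theorem R_refl (x : X k) : (x, x) ∈ R k := ⟨0, fun _ _ => rfl⟩

theorem R_symm {x y : X k} (h : (x, y) ∈ R k) : (y, x) ∈ R k := by
  obtain ⟨N, hN⟩ := h
  exact ⟨N, fun n hn => (hN n hn).symm⟩

theorem R_trans {x y z : X k} (h : (x, y) ∈ R k) (h' : (y, z) ∈ R k) : (x, z) ∈ R k := by
  obtain ⟨N, hN⟩ := h
  obtain ⟨M, hM⟩ := h'
  exact ⟨max N M, fun n hn => (hN n (le_of_max_le_left hn)).trans (hM n (le_of_max_le_right hn))⟩

theorem IsCocycle.self {c : X k → X k → ℝ} (hc : IsCocycle c) (x : X k) : c x x = 0 := by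
  have := hc.add x x x (R_refl x) (R_refl x)
  linarith

theorem IsCocycle.symm {c : X k → X k → ℝ} (hc : IsCocycle c) {x y : X k} (h : (x, y) ∈ R k) :
    c y x = - c x y := by
  have := hc.add x y x h (R_symm h)
  rw [hc.self] at this
  linarith

/-- replace the first `N` coordinates of `x` by those of `p` -/
def sp (N : ℕ) (p x : X k) : X k := fun n => if n < N then p n else x n

theorem sp_mem (N : ℕ) (p x : X k) : (sp N p x, x) ∈ Rn k N := by
  intro n hn
  simp only [sp]
  rw [if_neg (by omega)]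

theorem sp_sp {M N : ℕ} {p q : X k} (h : (p, q) ∈ Rn k M) (x : X k) :
    (sp N p x, sp N q x) ∈ Rn k M := by
  intro n hn
  simp only [sp]
  split_ifs
  · exact h n hn
  · rfl

theorem isClosed_Rn (N : ℕ) : IsClosed (Rn k N) := by
  have : Rn k N = ⋂ n, ⋂ _ : N ≤ n, {p : X k × X k | p.1 n = p.2 n} := by
    ext p; simp [Rn]
  rw [this]
  exact isClosed_iInter fun n => isClosed_iInter fun _ => isClosed_eq (by fun_prop) (by fun_prop)

/-- uniformity over tails -/
theorem exists_level {c : X k → X k → ℝ} (hc : IsCocycle c) {M : ℕ} {p q : X k}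
    (h : (p, q) ∈ Rn k M) {t : ℝ} (ht : t < c p q) :
    ∃ N, ∀ x : X k, t < c (sp N p x) (sp N q x) := by
  by_contra hcon
  push Not at hcon
  choose x hx using hcon
  have hlim : ∀ p : X k, Tendsto (fun N => sp N p (x N)) atTop (𝓝 p) := by
    intro p
    rw [tendsto_pi_nhds]
    intro n
    refine tendsto_const_nhds.congr' ?_
    filter_upwards [eventually_gt_atTop n] with N hN
    simp only [sp]
    rw [if_pos hN]
  have h1 : Tendsto (fun N => (sp N p (x N), sp N q (x N))) atTop (𝓝[Rn k M] (p, q)) := by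
    rw [tendsto_nhdsWithin_iff]
    exact ⟨(hlim p).prodMk_nhds (hlim q), Eventually.of_forall fun N => sp_sp h _⟩
  have h2 : Tendsto (fun N => c (sp N p (x N)) (sp N q (x N))) atTop (𝓝 (c p q)) :=
    (hc.cont M (p, q) h).tendsto.comp h1
  have h3 : c p q ≤ t := le_of_tendsto h2 (Eventually.of_forall hx)
  linarith

end

/-- If two cocycles on the AF equivalence relation of a UHF algebra define the same subset
`P = {c ≥ 0} = {c' ≥ 0}` and one of them is bounded, then so is the other one. -/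
theorem result (k : ℕ → ℕ) (c c' : X k → X k → ℝ) (hc : IsCocycle c) (hc' : IsCocycle c')
    (hP : posSet c = posSet c') (hb : IsBoundedCocycle c') : IsBoundedCocycle c := by
  obtain ⟨B, hB⟩ := hb
  have hsign : ∀ x y, (x, y) ∈ R k → 0 ≤ c x y → 0 ≤ c' x y := by
    intro x y h h0
    have : (x, y) ∈ posSet c := ⟨h, h0⟩
    rw [hP] at this
    exact this.2
  have hsign' : ∀ x y, (x, y) ∈ R k → 0 ≤ c' x y → 0 ≤ c x y := by
    intro x y h h0
    have : (x, y) ∈ posSet c' := ⟨h, h0⟩
    rw [← hP] at this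
    exact this.2
  by_cases hpos : ∃ x y, (x, y) ∈ R k ∧ 0 < c' x y
  swap
  · push Not at hpos
    refine ⟨0, fun x y h => ?_⟩
    have h1 : 0 ≤ c' x y := by
      have := hpos y x (R_symm h)
      rw [hc'.symm h] at this
      linarith
    have h2 : 0 ≤ c' y x := by
      have := hpos x y h
      rw [hc'.symm h]
      linarith
    have h3 := hsign' x y h h1
    have h4 := hsign' y x (R_symm h) h2
    rw [hc.symm h] at h4
    have : c x y = 0 := by linarith
    rw [this]; simp
  -- the supremum of `c'`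
  let T : Set ℝ := {t | ∃ x y, (x, y) ∈ R k ∧ t = c' x y}
  have hTb : BddAbove T := ⟨B, by
    rintro t ⟨x, y, h, rfl⟩
    exact (le_abs_self _).trans (hB x y h)⟩
  obtain ⟨x₀, y₀, h₀, hc₀⟩ := hpos
  have hTne : T.Nonempty := ⟨_, x₀, y₀, h₀, rfl⟩
  have hle : ∀ x y, (x, y) ∈ R k → c' x y ≤ sSup T := fun x y h => le_csSup hTb ⟨x, y, h, rfl⟩
  have hS : 0 < sSup T := lt_of_lt_of_le hc₀ (hle _ _ h₀)
  set S := sSup T with hSdef
  obtain ⟨t, ⟨p, q, hpq, rfl⟩, ht⟩ := exists_lt_of_lt_csSup hTne (show S - S / 8 < sSup T by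
    rw [← hSdef]; linarith)
  obtain ⟨M, hM⟩ := hpq
  obtain ⟨N, hN⟩ := exists_level hc' hM ht
  -- bound on the compact set `R_N`
  obtain ⟨C, hC⟩ := (isClosed_Rn (k := k) N).isCompact.exists_bound_of_continuousOn (hc.cont N)
  have hC' : ∀ x y, (x, y) ∈ Rn k N → |c x y| ≤ C := fun x y h => hC (x, y) h
  have key : ∀ x y, (x, y) ∈ R k → c x y ≤ 2 * C := by
    intro x y hxy
    by_contra hlt
    push Not at hlt
    have r1 : (sp N q x, x) ∈ R k := ⟨N, sp_mem N q x⟩
    have r2 : (y, sp N p y) ∈ R k := R_symm ⟨N, sp_mem N p y⟩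
    have r3 : (sp N p x, x) ∈ R k := ⟨N, sp_mem N p x⟩
    have r4 : (sp N q y, y) ∈ R k := ⟨N, sp_mem N q y⟩
    have r5 : (sp N q x, sp N p y) ∈ R k := R_trans (R_trans r1 hxy) r2
    -- `c` is positive on this pair
    have e1 : c (sp N q x) (sp N p y) = c (sp N q x) x + c x y + c y (sp N p y) := by
      rw [hc.add _ _ _ r1 hxy, hc.add _ _ _ (R_trans r1 hxy) r2]
    have b1 := (abs_le.1 (hC' _ _ (sp_mem N q x))).1
    have b2 : c y (sp N p y) = - c (sp N p y) y := hc.symm ⟨N, sp_mem N p y⟩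
    have b3 := (abs_le.1 (hC' _ _ (sp_mem N p y))).2
    have p1 : 0 ≤ c' (sp N q x) (sp N p y) := hsign _ _ r5 (by rw [e1, b2]; linarith)
    -- `c'` is negative on this pair
    have r6 : (sp N p x, sp N q x) ∈ R k := ⟨M, sp_sp hM x⟩
    have r7 : (sp N p y, sp N q y) ∈ R k := ⟨M, sp_sp hM y⟩
    have r8 : (sp N p x, sp N q y) ∈ R k := R_trans (R_trans r3 hxy) (R_symm r4)
    have e2 := hc'.add _ _ _ r6 r5
    have e3 := hc'.add _ _ _ (R_trans r6 r5) r7
    have l1 := hle _ _ r8
    have l2 := hN x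
    have l3 := hN y
    linarith
  refine ⟨2 * C, fun x y h => abs_le.2 ⟨?_, key x y h⟩⟩
  have := key y x (R_symm h)
  rw [hc.symm h] at this
  linarith

end Pool.Agent.Results.MP_3ea43b_an.NotBoth
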